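import Mathlib

/-!
# Positive sequences with slow variation along each parity: power laws along subsequences
-/

set_option autoImplicit false
set_option linter.unusedVariables false

namespace Pool.Agent.R79.SW

open Filter Topology

/-- `log (u n) / log n` -/
noncomputable def ex (u : ℕ → ℝ) (n : ℕ) : ℝ := Real.log (u n) / Real.log n

/-- the finite limit points of a sequence -/
def Lims (g : ℕ → ℝ) : Set ℝ := {x | MapClusterPt x atTop g}

lemma cross {w : ℕ → ℝ} {p : ℕ} (hneg : ∃ᶠ n in atTop, n % 2 = p ∧ w n < 0)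
    (hpos : ∃ᶠ n in atTop, n % 2 = p ∧ 0 ≤ w n) :
    ∃ᶠ n in atTop, n % 2 = p ∧ w n < 0 ∧ 0 ≤ w (n + 2) := by
  rw [frequently_atTop] at *
  intro N
  obtain ⟨n, hn, hp, hw⟩ := hneg N
  obtain ⟨m, hm, hp', hw'⟩ := hpos n
  by_contra hcon
  push Not at hcon
  have key : ∀ j : ℕ, w (n + 2 * j) < 0 := by
    intro j
    induction j with
    | zero => simpa using hw
    | succ j ih =>
      have := hcon (n + 2 * j) (by omega) (by omega) ih
      rwa [show n + 2 * (j + 1) = n + 2 * j + 2 by ring]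
  have h1 := key ((m - n) / 2)
  rw [show n + 2 * ((m - n) / 2) = m by omega] at h1
  linarith

lemma log_add_le {n : ℕ} (hn : 1 ≤ n) (k : ℕ) :
    |Real.log ((n + k : ℕ) : ℝ) - Real.log n| ≤ k / n := by
  have h0 : (0 : ℝ) < n := by exact_mod_cast hn
  have h1 : (n : ℝ) ≤ ((n + k : ℕ) : ℝ) := by push_cast; linarith [(Nat.cast_nonneg k : (0:ℝ) ≤ k)]
  have h2 := Real.log_le_log h0 h1
  rw [abs_of_nonneg (by linarith), ← Real.log_div (by linarith) h0.ne']
  refine (Real.log_le_sub_one_of_pos (by positivity)).trans (le_of_eq ?_)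
  push_cast
  field_simp
  ring

lemma log_step {x y δ : ℝ} (hx : 0 < x) (hy : 0 < y) (h : |y / x - 1| ≤ δ) (hδ : δ ≤ 1 / 2) :
    |Real.log y - Real.log x| ≤ 2 * δ := by
  have hr : 0 < y / x := by positivity
  obtain ⟨h1, h2⟩ := abs_le.mp h
  rw [← Real.log_div hy.ne' hx.ne']
  have hδ0 : 0 ≤ δ := (abs_nonneg _).trans h
  rw [abs_le]
  constructor
  · have h3 := Real.one_sub_inv_le_log_of_pos hr
    have h4 : (y / x)⁻¹ ≤ 1 + 2 * δ := by
      rw [inv_le_comm₀ hr (by positivity)]
      have : (1 + 2 * δ)⁻¹ ≤ 1 - δ := by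
        rw [inv_le_iff_one_le_mul₀ (by positivity)]
        nlinarith
      linarith
    linarith
  · have := Real.log_le_sub_one_of_pos hr
    linarith

variable {u r : ℕ → ℝ} {M : ℝ}

/-- the hypotheses: slow variation along each parity and bounded consecutive ratios -/
structure Slow (u r : ℕ → ℝ) (M : ℝ) : Prop where
  pos : ∀ n, 0 < u n
  hM : 1 ≤ M
  rate : ∀ᶠ n in atTop, |u (n + 2) / u n - 1| ≤ r n
  lim : Tendsto r atTop (𝓝 0)
  one : ∀ᶠ n in atTop, u (n + 1) ≤ M * u n ∧ u n ≤ M * u (n + 1)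

lemma log_tend : Tendsto (fun n : ℕ => Real.log n) atTop atTop :=
  Real.tendsto_log_atTop.comp tendsto_natCast_atTop_atTop

lemma one_log (S : Slow u r M) : ∀ᶠ n in atTop,
    |Real.log (u (n + 1)) - Real.log (u n)| ≤ Real.log M := by
  have hM0 : 0 < M := by linarith [S.hM]
  filter_upwards [S.one] with n hn
  have h0 := S.pos n
  have h1 := S.pos (n + 1)
  have a1 := Real.log_le_log h1 hn.1
  have a2 := Real.log_le_log h0 hn.2
  rw [Real.log_mul hM0.ne' h0.ne'] at a1
  rw [Real.log_mul hM0.ne' h1.ne'] at a2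
  rw [abs_le]
  constructor <;> linarith

/-- `c` strictly between the lower and the upper limit of `log u / log n`: exact power laws with
exponent `c` and any amplitude `B` along infinitely many `n` of each parity. -/
theorem main (S : Slow u r M) {c ε : ℝ} (hε : 0 < ε) (h1 : ∃ᶠ n in atTop, ex u n ≤ c - ε)
    (h2 : ∃ᶠ n in atTop, c + ε ≤ ex u n) {B : ℝ} (hB : 0 < B) {p : ℕ} (hp : p ≤ 1) :
    ∃ᶠ n in atTop, n % 2 = p ∧ |u n / (n : ℝ) ^ c - B| ≤ B * (2 * r n + 2 * |c| / n) := by
  set w : ℕ → ℝ := fun n => Real.log (u n) - c * Real.log n - Real.log B with hw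
  have hbig : ∀ᶠ n : ℕ in atTop, |Real.log B| + Real.log M + |c| + 1 ≤ ε * Real.log n :=
    (log_tend.const_mul_atTop hε).eventually_ge_atTop _
  have hlM : 0 ≤ Real.log M := Real.log_nonneg S.hM
  have hstep1 : ∀ n : ℕ, 1 ≤ n → |c * Real.log ((n + 1 : ℕ) : ℝ) - c * Real.log n| ≤ |c| := by
    intro n hn
    rw [← mul_sub, abs_mul]
    have h3 := log_add_le hn 1
    have h4 : ((1 : ℕ) : ℝ) / n ≤ 1 := by
      have : (1 : ℝ) ≤ n := by exact_mod_cast hn
      rw [div_le_one (by linarith)]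
      simpa using this
    calc |c| * |Real.log ((n + 1 : ℕ) : ℝ) - Real.log n| ≤ |c| * 1 :=
          mul_le_mul_of_nonneg_left (h3.trans h4) (abs_nonneg c)
      _ = |c| := mul_one _
  have hneg : ∃ᶠ n in atTop, n % 2 = p ∧ w n < 0 := by
    have h3 := h1.and_eventually (hbig.and ((one_log S).and (eventually_ge_atTop 2)))
    rw [frequently_atTop] at h3 ⊢
    intro N
    obtain ⟨n, hn, a1, a2, a3, a4⟩ := h3 N
    have hn0 : (1 : ℝ) < n := by exact_mod_cast (show 1 < n by omega)
    have hl : 0 < Real.log n := Real.log_pos hn0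
    have b1 : Real.log (u n) ≤ (c - ε) * Real.log n := by
      unfold ex at a1
      rwa [div_le_iff₀ hl] at a1
    have b2 := neg_abs_le (Real.log B)
    rcases Nat.lt_or_ge (n % 2) p with h | h
    · refine ⟨n + 1, by omega, by omega, ?_⟩
      have b3 := (abs_le.mp a3).2
      have b4 := (abs_le.mp (hstep1 n (by omega))).1
      simp only [hw]
      linarith
    · rcases Nat.lt_or_ge p (n % 2) with h' | h'
      · refine ⟨n + 1, by omega, by omega, ?_⟩
        have b3 := (abs_le.mp a3).2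
        have b4 := (abs_le.mp (hstep1 n (by omega))).1
        simp only [hw]
        linarith
      · refine ⟨n, hn, by omega, ?_⟩
        simp only [hw]
        have := abs_nonneg c
        linarith
  have hpos : ∃ᶠ n in atTop, n % 2 = p ∧ 0 ≤ w n := by
    have h3 := h2.and_eventually (hbig.and ((one_log S).and (eventually_ge_atTop 2)))
    rw [frequently_atTop] at h3 ⊢
    intro N
    obtain ⟨n, hn, a1, a2, a3, a4⟩ := h3 N
    have hn0 : (1 : ℝ) < n := by exact_mod_cast (show 1 < n by omega)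
    have hl : 0 < Real.log n := Real.log_pos hn0
    have b1 : (c + ε) * Real.log n ≤ Real.log (u n) := by
      unfold ex at a1
      rwa [le_div_iff₀ hl] at a1
    have b2 := le_abs_self (Real.log B)
    rcases Nat.lt_or_ge (n % 2) p with h | h
    · refine ⟨n + 1, by omega, by omega, ?_⟩
      have b3 := (abs_le.mp a3).1
      have b4 := (abs_le.mp (hstep1 n (by omega))).2
      simp only [hw]
      linarith
    · rcases Nat.lt_or_ge p (n % 2) with h' | h'
      · refine ⟨n + 1, by omega, by omega, ?_⟩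
        have b3 := (abs_le.mp a3).1
        have b4 := (abs_le.mp (hstep1 n (by omega))).2
        simp only [hw]
        linarith
      · refine ⟨n, hn, by omega, ?_⟩
        simp only [hw]
        have := abs_nonneg c
        linarith
  have hhalf : ∀ᶠ n in atTop, r n < 1 / 2 := S.lim.eventually_lt_const (by norm_num)
  refine ((cross hneg hpos).and_eventually
    (S.rate.and (hhalf.and (eventually_ge_atTop 1)))).mono ?_
  rintro n ⟨⟨c1, c2, c3⟩, c4, c5, c6⟩
  refine ⟨c1, ?_⟩
  have hn0 : (0 : ℝ) < n := by exact_mod_cast c6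
  have hnc : (0 : ℝ) < (n : ℝ) ^ c := Real.rpow_pos_of_pos hn0 c
  have d1 := (abs_le.mp (log_step (S.pos n) (S.pos (n + 2)) c4 c5.le)).2
  have d2 : |c * Real.log ((n + 2 : ℕ) : ℝ) - c * Real.log n| ≤ |c| * (2 / n) := by
    rw [← mul_sub, abs_mul]
    refine mul_le_mul_of_nonneg_left ?_ (abs_nonneg c)
    simpa using log_add_le c6 2
  have d3 := (abs_le.mp d2).1
  simp only [hw] at c2 c3
  set D := 2 * r n + 2 * |c| / n with hD
  have e0 : |c| * (2 / n) = 2 * |c| / n := by ring
  rw [e0] at d3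
  have d4 : -D ≤ Real.log (u n) - c * Real.log n - Real.log B := by
    rw [hD]
    linarith
  have e1 : u n / (n : ℝ) ^ c = B * Real.exp (Real.log (u n) - c * Real.log n - Real.log B) := by
    rw [Real.exp_sub, Real.exp_sub, Real.exp_log (S.pos n), Real.exp_log hB, mul_comm c,
      ← Real.rpow_def_of_pos hn0]
    field_simp
  set x := Real.log (u n) - c * Real.log n - Real.log B with hx
  have e2 : Real.exp x ≤ 1 := Real.exp_le_one_iff.mpr c2.le
  have e3 := Real.add_one_le_exp x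
  rw [e1, show B * Real.exp x - B = B * (Real.exp x - 1) by ring, abs_mul, abs_of_pos hB]
  refine mul_le_mul_of_nonneg_left ?_ hB.le
  rw [abs_of_nonpos (by linarith)]
  linarith

lemma mem_lims {c : ℝ} (S : Slow u r M) {p : ℕ}
    (h : ∃ᶠ n in atTop, n % 2 = p ∧ |u n / (n : ℝ) ^ c - 1| ≤ 1 * (2 * r n + 2 * |c| / n)) :
    c ∈ Lims (ex u) := by
  show MapClusterPt c atTop (ex u)
  rw [mapClusterPt_iff_frequently]
  intro s hs
  obtain ⟨δ, hδ, hs⟩ := Metric.mem_nhds_iff.mp hs
  have t : Tendsto (fun n : ℕ => 1 * (2 * r n + 2 * |c| / n)) atTop (𝓝 0) := by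
    have t1 := S.lim.const_mul 2
    have t2 : Tendsto (fun n : ℕ => 2 * |c| / (n : ℝ)) atTop (𝓝 0) :=
      tendsto_const_div_atTop_nhds_zero_nat _
    have := t1.add t2
    simpa using this
  have hbig : ∀ᶠ n : ℕ in atTop, 1 < δ * Real.log n :=
    (log_tend.const_mul_atTop hδ).eventually_gt_atTop _
  refine (h.and_eventually ((t.eventually_lt_const (show (0 : ℝ) < 1 / 2 by norm_num)).and
    (hbig.and (eventually_ge_atTop 2)))).mono ?_
  rintro n ⟨⟨-, a1⟩, a2, a3, a4⟩
  apply hs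
  have hn1 : (1 : ℝ) < n := by exact_mod_cast (show 1 < n by omega)
  have hn0 : (0 : ℝ) < n := by linarith
  have hl : 0 < Real.log n := Real.log_pos hn1
  have hnc : (0 : ℝ) < (n : ℝ) ^ c := Real.rpow_pos_of_pos hn0 c
  have b1 := log_step (x := (n : ℝ) ^ c) (y := u n) hnc (S.pos n) (a1.trans a2.le) le_rfl
  rw [Real.log_rpow hn0] at b1
  rw [Metric.mem_ball, Real.dist_eq]
  have e : ex u n - c = (Real.log (u n) - c * Real.log n) / Real.log n := by
    unfold ex
    field_simp
  rw [e, abs_div, abs_of_pos hl, div_lt_iff₀ hl]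
  linarith

lemma freq_low {g : ℕ → ℝ} {x c : ℝ} (hx : x ∈ Lims g) (h : x < c) :
    ∃ᶠ n in atTop, g n ≤ c := by
  have h1 : MapClusterPt x atTop g := hx
  rw [mapClusterPt_iff_frequently] at h1
  exact (h1 _ (Iio_mem_nhds h)).mono fun n hn => le_of_lt hn

lemma freq_high {g : ℕ → ℝ} {x c : ℝ} (hx : x ∈ Lims g) (h : c < x) :
    ∃ᶠ n in atTop, c ≤ g n := by
  have h1 : MapClusterPt x atTop g := hx
  rw [mapClusterPt_iff_frequently] at h1
  exact (h1 _ (Ioi_mem_nhds h)).mono fun n hn => le_of_lt hn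

/-- the limit points form a closed set -/
theorem closed (g : ℕ → ℝ) : IsClosed (Lims g) := isClosed_setOfPred_clusterPt

lemma between (S : Slow u r M) {x y c : ℝ} (h1 : ∃ᶠ n in atTop, ex u n ≤ x)
    (h2 : ∃ᶠ n in atTop, y ≤ ex u n) (hx : x < c) (hy : c < y) : c ∈ Lims (ex u) := by
  set ε := min (c - x) (y - c) with hεd
  have hε : 0 < ε := lt_min (by linarith) (by linarith)
  have e1 : ε ≤ c - x := min_le_left _ _
  have e2 : ε ≤ y - c := min_le_right _ _
  exact mem_lims S (main S hε (h1.mono fun n hn => by linarith) (h2.mono fun n hn => by linarith)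
    one_pos (p := 0) (by norm_num))

/-- the limit points form an interval -/
theorem ord (S : Slow u r M) : (Lims (ex u)).OrdConnected := by
  refine ⟨fun x hx y hy c hc => ?_⟩
  rcases eq_or_lt_of_le hc.1 with h | h
  · rwa [← h]
  rcases eq_or_lt_of_le hc.2 with h' | h'
  · rwa [h']
  exact between S (x := (x + c) / 2) (y := (y + c) / 2) (freq_low hx (by linarith))
    (freq_high hy (by linarith)) (by linarith) (by linarith)

lemma not_tendsto {g : ℕ → ℝ} {γ : ℝ} (h : ¬ Tendsto g atTop (𝓝 γ)) :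
    ∃ ε : ℝ, 0 < ε ∧ ((∃ᶠ n in atTop, g n ≤ γ - ε) ∨ ∃ᶠ n in atTop, γ + ε ≤ g n) := by
  rw [Metric.tendsto_atTop] at h
  push Not at h
  obtain ⟨ε, hε, h⟩ := h
  refine ⟨ε, hε, ?_⟩
  rw [← frequently_or_distrib, frequently_atTop]
  intro N
  obtain ⟨n, hn, h1⟩ := h N
  refine ⟨n, hn, ?_⟩
  rw [Real.dist_eq] at h1
  rcases le_abs.mp h1 with h2 | h2
  · right; linarith
  · left; linarith

/-- an isolated limit point is the limit; more generally a limit point near which there are only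
countably many -/
theorem isolated (S : Slow u r M) {γ δ : ℝ} (hγ : γ ∈ Lims (ex u)) (hδ : 0 < δ)
    (hc : (Lims (ex u) ∩ Set.Ioo (γ - δ) (γ + δ)).Countable) :
    Tendsto (ex u) atTop (𝓝 γ) := by
  by_contra hcon
  obtain ⟨ε, hε, h | h⟩ := not_tendsto hcon
  · have hsub : Set.Ioo (γ - min ε δ) γ ⊆ Lims (ex u) ∩ Set.Ioo (γ - δ) (γ + δ) := by
      intro c hc
      have m1 := min_le_left ε δ
      have m2 := min_le_right ε δ
      refine ⟨?_, by linarith [hc.1], by linarith [hc.2]⟩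
      exact between S (x := γ - ε) (y := (γ + c) / 2) h (freq_high hγ (by linarith [hc.2]))
        (by linarith [hc.1]) (by linarith [hc.2])
    have := (hc.mono hsub)
    exact (Cardinal.Real.Ioo_countable_iff.mp this).not_gt (by
      have := lt_min hε hδ
      linarith)
  · have hsub : Set.Ioo γ (γ + min ε δ) ⊆ Lims (ex u) ∩ Set.Ioo (γ - δ) (γ + δ) := by
      intro c hc
      have m1 := min_le_left ε δ
      have m2 := min_le_right ε δ
      refine ⟨?_, by linarith [hc.1], by linarith [hc.2]⟩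
      exact between S (x := (γ + c) / 2) (y := γ + ε) (freq_low hγ (by linarith [hc.1])) h
        (by linarith [hc.1]) (by linarith [hc.2])
    have := (hc.mono hsub)
    exact (Cardinal.Real.Ioo_countable_iff.mp this).not_gt (by
      have := lt_min hε hδ
      linarith)

/-- the limit is an isolated limit point -/
theorem isolated_iff (S : Slow u r M) (γ : ℝ) : Tendsto (ex u) atTop (𝓝 γ) ↔
    γ ∈ Lims (ex u) ∧ ∃ δ : ℝ, 0 < δ ∧ (Lims (ex u) ∩ Set.Ioo (γ - δ) (γ + δ)).Countable := by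
  constructor
  · intro h
    refine ⟨h.mapClusterPt, 1, one_pos, ?_⟩
    refine (Set.countable_singleton γ).mono ?_
    rintro x ⟨hx, -⟩
    by_contra hne
    have hx' : MapClusterPt x atTop (ex u) := hx
    rw [mapClusterPt_iff_frequently] at hx'
    obtain ⟨s, t, hs, ht, hst⟩ := t2_separation_nhds hne
    obtain ⟨n, hn1, hn2⟩ := ((hx' s hs).and_eventually (h.eventually ht)).exists
    exact (Set.disjoint_left.mp hst hn1 hn2)
  · rintro ⟨h1, δ, hδ, h2⟩
    exact isolated S h1 hδ h2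

/-- if `ex u` has a finite limit point: convergence, or exact power laws for all exponents of an
interval -/
theorem dich (S : Slow u r M) {b D : ℝ} (h3 : ∃ᶠ n in atTop, ex u n ∈ Set.Icc b D) :
    (∃ γ, Tendsto (ex u) atTop (𝓝 γ)) ∨
    ∃ x y : ℝ, x < y ∧ ∀ c ∈ Set.Ioo x y, ∀ B : ℝ, 0 < B → ∀ p : ℕ, p ≤ 1 →
      ∃ᶠ n in atTop, n % 2 = p ∧ |u n / (n : ℝ) ^ c - B| ≤ B * (2 * r n + 2 * |c| / n) := by
  by_cases h2 : ∃ γ, Tendsto (ex u) atTop (𝓝 γ)
  · exact Or.inl h2
  right
  obtain ⟨γ, -, hγ⟩ := (isCompact_Icc (a := b) (b := D)).exists_mapClusterPt_of_frequently h3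
  have hγ' : γ ∈ Lims (ex u) := hγ
  push Not at h2
  obtain ⟨ε, hε, h | h⟩ := not_tendsto (h2 γ)
  · refine ⟨γ - ε, γ, by linarith, fun c hc B hB p hp => ?_⟩
    set η := min (c - (γ - ε)) ((γ - c) / 2) with hηd
    have hη : 0 < η := lt_min (by linarith [hc.1]) (by linarith [hc.2])
    have m1 := min_le_left (c - (γ - ε)) ((γ - c) / 2)
    have m2 := min_le_right (c - (γ - ε)) ((γ - c) / 2)
    exact main S hη (h.mono fun n hn => by linarith)
      ((freq_high hγ' (show (γ + c) / 2 < γ by linarith [hc.2])).mono fun n hn => by linarith)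
      hB hp
  · refine ⟨γ, γ + ε, by linarith, fun c hc B hB p hp => ?_⟩
    set η := min ((c - γ) / 2) (γ + ε - c) with hηd
    have hη : 0 < η := lt_min (by linarith [hc.1]) (by linarith [hc.2])
    have m1 := min_le_left ((c - γ) / 2) (γ + ε - c)
    have m2 := min_le_right ((c - γ) / 2) (γ + ε - c)
    exact main S hη
      ((freq_low hγ' (show γ < (γ + c) / 2 by linarith [hc.1])).mono fun n hn => by linarith)
      (h.mono fun n hn => by linarith) hB hp

/-- the same for `ex u` bounded below -/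
theorem above (S : Slow u r M) {b : ℝ} (hb : ∀ᶠ n in atTop, b ≤ ex u n) :
    Tendsto (ex u) atTop atTop ∨ (∃ γ, Tendsto (ex u) atTop (𝓝 γ)) ∨
    ∃ x y : ℝ, x < y ∧ ∀ c ∈ Set.Ioo x y, ∀ B : ℝ, 0 < B → ∀ p : ℕ, p ≤ 1 →
      ∃ᶠ n in atTop, n % 2 = p ∧ |u n / (n : ℝ) ^ c - B| ≤ B * (2 * r n + 2 * |c| / n) := by
  by_cases h1 : Tendsto (ex u) atTop atTop
  · exact Or.inl h1
  right
  rw [tendsto_atTop] at h1
  push Not at h1
  obtain ⟨D, hD⟩ := h1
  exact dich S (b := b) (D := D)
    ((hD.and_eventually hb).mono fun n hn => ⟨hn.2, (lt_of_not_ge (by simpa using hn.1)).le⟩)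

/-- the same for `ex u` bounded above -/
theorem below (S : Slow u r M) {b : ℝ} (hb : ∀ᶠ n in atTop, ex u n ≤ b) :
    Tendsto (ex u) atTop atBot ∨ (∃ γ, Tendsto (ex u) atTop (𝓝 γ)) ∨
    ∃ x y : ℝ, x < y ∧ ∀ c ∈ Set.Ioo x y, ∀ B : ℝ, 0 < B → ∀ p : ℕ, p ≤ 1 →
      ∃ᶠ n in atTop, n % 2 = p ∧ |u n / (n : ℝ) ^ c - B| ≤ B * (2 * r n + 2 * |c| / n) := by
  by_cases h1 : Tendsto (ex u) atTop atBot
  · exact Or.inl h1
  right
  rw [tendsto_atBot] at h1
  push Not at h1
  obtain ⟨D, hD⟩ := h1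
  exact dich S (b := D) (D := b)
    ((hD.and_eventually hb).mono fun n hn => ⟨(lt_of_not_ge (by simpa using hn.1)).le, hn.2⟩)

end Pool.Agent.R79.SW
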