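import Pool.Agent.R956.V1
import Pool.Agent.R79.SW.Cross

/-!
# Instances: the normalised numbers of walks, and the ratios `r (2 n) / r n ^ 2`
-/

set_option autoImplicit false
set_option linter.unusedVariables false

namespace Pool.Agent.R79.SW

open Filter Topology
open Pool.Agent.R956.D2 (f f_nonneg f_tendsto)
open Pool.Agent.R956

variable {r : ℕ → ℝ} {K β : ℝ}

lemma inv_le_f {n : ℕ} (hn : 2 ≤ n) : 1 / (n : ℝ) ≤ 2 * f n := by
  have h2 : (2 : ℝ) ≤ n := by exact_mod_cast hn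
  have hs : Real.sqrt n ≤ n := by
    rw [Real.sqrt_le_left (by linarith)]
    nlinarith
  have hs0 : 0 < Real.sqrt n := Real.sqrt_pos.mpr (by linarith)
  have hl : (1 : ℝ) / 2 ≤ Real.log n := by
    have h3 := Real.log_le_log (by norm_num) h2
    have := Real.log_two_gt_d9
    linarith
  unfold Pool.Agent.R956.D2.f
  calc 1 / (n : ℝ) ≤ 1 / Real.sqrt n := one_div_le_one_div_of_le hs0 hs
    _ ≤ 2 * (Real.log n / Real.sqrt n) := by
      rw [← mul_div_assoc]
      exact div_le_div_of_nonneg_right (by linarith) hs0.le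

/-- the form of the error term -/
lemma err_le {K : ℝ} (hK : 0 ≤ K) {n : ℕ} (hn : 2 ≤ n) (c B : ℝ) (hB : 0 < B) :
    B * (2 * (K * f n) + 2 * |c| / n) ≤ (2 * K + 4) * (1 + |c|) * B * f n := by
  have h1 := inv_le_f hn
  have h2 := f_nonneg n
  have h3 := abs_nonneg c
  have e : 2 * |c| / n = 2 * |c| * (1 / n) := by ring
  have h4 : 2 * |c| * (1 / n) ≤ 2 * |c| * (2 * f n) := mul_le_mul_of_nonneg_left h1 (by linarith)
  have h5 : 0 ≤ K * |c| * f n := by positivity
  rw [e]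
  have h6 : 2 * (K * f n) + 2 * |c| * (1 / n) ≤ (2 * K + 4) * (1 + |c|) * f n := by nlinarith
  calc B * (2 * (K * f n) + 2 * |c| * (1 / n)) ≤ B * ((2 * K + 4) * (1 + |c|) * f n) :=
        mul_le_mul_of_nonneg_left h6 hB.le
    _ = _ := by ring

theorem slow_r (S : V1.Sq r K β) : Slow r (fun n => K * f n) (β + 1) where
  pos := S.pos
  hM := by linarith [S.hβ]
  rate := by
    filter_upwards [eventually_ge_atTop 2] with n hn
    exact S.rate n hn
  lim := by simpa using f_tendsto.const_mul K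
  one := S.step 1 one_pos

theorem slow_P (S : V1.Sq r K β) : ∃ K' : ℝ, 0 ≤ K' ∧
    Slow (V1.P r) (fun n => K' * f n) (β ^ 2 + 1) := by
  obtain ⟨K', hK', h⟩ := V1.P_rate S
  refine ⟨K', hK', ⟨V1.P_pos S, by nlinarith [S.hβ], ?_, ?_, V1.P_step S one_pos⟩⟩
  · filter_upwards [eventually_ge_atTop 2] with n hn
    exact h n hn
  · simpa using f_tendsto.const_mul K'

/-- the error term of `main` in the form of the statements -/
lemma freq_err {u : ℕ → ℝ} {K c B : ℝ} (hK : 0 ≤ K) (hB : 0 < B) {p : ℕ}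
    (h : ∃ᶠ n : ℕ in atTop, n % 2 = p ∧
      |u n / (n : ℝ) ^ c - B| ≤ B * (2 * (K * f n) + 2 * |c| / n)) :
    ∃ᶠ n : ℕ in atTop, n % 2 = p ∧
      |u n / (n : ℝ) ^ c - B| ≤ (2 * K + 4) * (1 + |c|) * B * f n :=
  (h.and_eventually (eventually_ge_atTop 2)).mono fun n hn =>
    ⟨hn.1.1, hn.1.2.trans (err_le hK hn.2 c B hB)⟩

end Pool.Agent.R79.SW
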