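import Pool.Agent.R79.SW.Inst

/-!
# Sequences with slowly varying consecutive ratios
-/

set_option autoImplicit false
set_option linter.unusedVariables false

namespace Pool.Agent.R79.SW

open Filter Topology
open Pool.Agent.R956.D2 (f f_nonneg f_tendsto f_window)

/-- the hypotheses of `Slow` from the rate for consecutive terms (from `n = 2` on) -/
theorem slow_step {v : ℕ → ℝ} (hv : ∀ n, 2 ≤ n → 0 < v n) {K : ℝ} (hK : 0 ≤ K)
    (h : ∀ n, 2 ≤ n → |v (n + 1) / v n - 1| ≤ K * f n) :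
    Slow (fun n => if 2 ≤ n then v n else 1) (fun n => 4 * K * f n) 2 := by
  have t : Tendsto (fun n => K * f n) atTop (𝓝 0) := by
    simpa using f_tendsto.const_mul K
  refine ⟨fun n => ?_, by norm_num, ?_, ?_, ?_⟩
  · show 0 < (if 2 ≤ n then v n else 1)
    split_ifs with h2
    · exact hv n h2
    · exact one_pos
  · filter_upwards [t.eventually_lt_const (show (0 : ℝ) < 1 / 2 by norm_num),
      eventually_ge_atTop 2] with n h1 hn
    rw [if_pos hn, if_pos (by omega)]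
    have p0 := hv n hn
    have p1 := hv (n + 1) (by omega)
    have p2 := hv (n + 2) (by omega)
    have a1 := h n hn
    have a2 := h (n + 1) (by omega)
    have a3 := f_window hn (show n ≤ n + 1 by omega) (by omega)
    have a4 : K * f (n + 1) ≤ 2 * (K * f n) := by
      calc K * f (n + 1) ≤ K * (2 * f n) := mul_le_mul_of_nonneg_left a3 hK
        _ = _ := by ring
    set x := v (n + 1) / v n with hx
    set y := v (n + 1 + 1) / v (n + 1) with hy
    have e : v (n + 2) / v n = x * y := by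
      rw [hx, hy]
      field_simp
    have hf := f_nonneg n
    obtain ⟨x1, x2⟩ := abs_le.mp a1
    obtain ⟨y1, y2⟩ := abs_le.mp (a2.trans a4)
    rw [e]
    have hK' : 0 ≤ K * f n := by positivity
    have e2 : x * y - 1 = (x - 1) * (y - 1) + (x - 1) + (y - 1) := by ring
    have b1 : |(x - 1) * (y - 1)| ≤ (K * f n) * 1 := by
      rw [abs_mul]
      exact mul_le_mul a1 ((a2.trans a4).trans (by linarith)) (abs_nonneg _) hK'
    rw [e2]
    refine (abs_add_le _ _).trans ?_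
    have b2 := abs_add_le ((x - 1) * (y - 1)) (x - 1)
    have b3 := a2.trans a4
    linarith
  · have := f_tendsto.const_mul (4 * K)
    simpa using this
  · filter_upwards [t.eventually_lt_const (show (0 : ℝ) < 1 / 2 by norm_num),
      eventually_ge_atTop 2] with n h1 hn
    rw [if_pos hn, if_pos (show 2 ≤ n + 1 by omega)]
    have p0 := hv n hn
    obtain ⟨x1, x2⟩ := abs_le.mp ((h n hn).trans h1.le)
    constructor
    · have : v (n + 1) / v n ≤ 2 := by linarith
      rwa [div_le_iff₀ p0] at this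
    · have : 1 / 2 ≤ v (n + 1) / v n := by linarith
      rw [le_div_iff₀ p0] at this
      linarith

/-- the results for such a sequence, in the form of the statements -/
theorem pack {v : ℕ → ℝ} (hv : ∀ n, 2 ≤ n → 0 < v n) {K0 : ℝ}
    (h : ∀ n, 2 ≤ n → |v (n + 1) / v n - 1| ≤ K0 * (Real.log n / Real.sqrt n))
    (hb : ∀ n, 2 ≤ n → 1 ≤ 2 * v n) :
    ∃ K : ℝ, 0 < K ∧
    (∀ c ε : ℝ, 0 < ε → (∃ᶠ n in atTop, ex v n ≤ c - ε) → (∃ᶠ n in atTop, c + ε ≤ ex v n) →
      ∀ B : ℝ, 0 < B → ∀ p : ℕ, p ≤ 1 → ∃ᶠ n : ℕ in atTop, n % 2 = p ∧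
        |v n / (n : ℝ) ^ c - B| ≤ K * (1 + |c|) * B * (Real.log n / Real.sqrt n)) ∧
    (IsClosed (Lims (ex v)) ∧ (Lims (ex v)).OrdConnected) ∧
    (∀ γ : ℝ, Tendsto (ex v) atTop (𝓝 γ) ↔ γ ∈ Lims (ex v) ∧
      ∃ δ : ℝ, 0 < δ ∧ (Lims (ex v) ∩ Set.Ioo (γ - δ) (γ + δ)).Countable) ∧
    (Tendsto (ex v) atTop atTop ∨ (∃ γ, Tendsto (ex v) atTop (𝓝 γ)) ∨
      ∃ x y : ℝ, x < y ∧ ∀ c ∈ Set.Ioo x y, ∀ B : ℝ, 0 < B → ∀ p : ℕ, p ≤ 1 →
        ∃ᶠ n : ℕ in atTop, n % 2 = p ∧
        |v n / (n : ℝ) ^ c - B| ≤ K * (1 + |c|) * B * (Real.log n / Real.sqrt n)) := by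
  obtain ⟨K, hK, hK'⟩ : ∃ K : ℝ, 0 ≤ K ∧ ∀ n, 2 ≤ n → |v (n + 1) / v n - 1| ≤ K * f n :=
    ⟨|K0|, abs_nonneg _, fun n hn => (h n hn).trans
      (mul_le_mul_of_nonneg_right (le_abs_self _) (f_nonneg n))⟩
  have S := slow_step hv hK hK'
  set u : ℕ → ℝ := fun n => if 2 ≤ n then v n else 1 with hu
  have huv : ∀ n, 2 ≤ n → u n = v n := fun n hn => by simp only [hu]; rw [if_pos hn]
  have hex : ∀ᶠ n in atTop, ex u n = ex v n := by
    filter_upwards [eventually_ge_atTop 2] with n hn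
    unfold ex
    rw [huv n hn]
  have hL : Lims (ex u) = Lims (ex v) := by
    ext x
    show MapClusterPt x atTop (ex u) ↔ MapClusterPt x atTop (ex v)
    unfold MapClusterPt
    rw [Filter.map_congr hex]
  have ht : ∀ l : Filter ℝ, Tendsto (ex u) atTop l ↔ Tendsto (ex v) atTop l := fun l =>
    tendsto_congr' hex
  have conv : ∀ {c B : ℝ} {p : ℕ}, 0 < B → (∃ᶠ n : ℕ in atTop, n % 2 = p ∧
      |u n / (n : ℝ) ^ c - B| ≤ B * (2 * (4 * K * f n) + 2 * |c| / n)) →
      ∃ᶠ n : ℕ in atTop, n % 2 = p ∧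
        |v n / (n : ℝ) ^ c - B| ≤ (2 * (4 * K) + 4) * (1 + |c|) * B *
          (Real.log n / Real.sqrt n) := by
    intro c B p hB h
    refine ((freq_err (K := 4 * K) (by linarith) hB h).and_eventually
      (eventually_ge_atTop 2)).mono fun n hn => ⟨hn.1.1, ?_⟩
    rw [← huv n hn.2]
    exact hn.1.2
  refine ⟨2 * (4 * K) + 4, by linarith, ?_, ⟨closed _, ?_⟩, fun γ => ?_, ?_⟩
  · intro c ε hε h1 h2 B hB p hp
    refine conv hB (main S hε ?_ ?_ hB hp)
    · exact (h1.and_eventually hex).mono fun n hn => by rw [hn.2]; exact hn.1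
    · exact (h2.and_eventually hex).mono fun n hn => by rw [hn.2]; exact hn.1
  · rw [← hL]
    exact ord S
  · rw [← ht, ← hL]
    exact isolated_iff S γ
  · have hb' : ∀ᶠ n in atTop, (-1 : ℝ) ≤ ex u n := by
      filter_upwards [eventually_ge_atTop 2] with n hn
      have hn2 : (2 : ℝ) ≤ n := by exact_mod_cast hn
      have hl : Real.log 2 ≤ Real.log n := Real.log_le_log (by norm_num) hn2
      have hl2 : 0 < Real.log 2 := Real.log_pos (by norm_num)
      unfold ex
      rw [huv n hn, le_div_iff₀ (by linarith)]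
      have h1 : (1 : ℝ) / 2 ≤ v n := by linarith [hb n hn]
      have h2 := Real.log_le_log (by norm_num) h1
      rw [one_div, Real.log_inv] at h2
      linarith
    rcases above S hb' with h | ⟨γ, h⟩ | ⟨x, y, hxy, h⟩
    · exact Or.inl ((ht _).mp h)
    · exact Or.inr (Or.inl ⟨γ, (ht _).mp h⟩)
    · exact Or.inr (Or.inr ⟨x, y, hxy, fun c hc B hB p hp => conv hB (h c hc B hB p hp)⟩)

end Pool.Agent.R79.SW
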